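import Pool.Agent.Helper2.SV.GoalsP

/-!
# Project SV (MP_e9db21_co): packet SV-GLUE

Gluing two perfect sets along a clique.
-/

set_option autoImplicit false

namespace Pool.Agent.Helper48.SV

open Pool.Agent.Helper2.SV

/-- A permutation of the colours. -/
theorem exists_perm {V : Type} [Finite V] (n : ℕ) (C : Set V) (f g : V → ℕ)
    (hf : ∀ x ∈ C, f x < n) (hg : ∀ x ∈ C, g x < n)
    (hfi : ∀ x ∈ C, ∀ y ∈ C, f x = f y → x = y) (hgi : ∀ x ∈ C, ∀ y ∈ C, g x = g y → x = y) :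
    ∃ σ : Equiv.Perm (Fin n), ∀ x (hx : x ∈ C), (σ ⟨g x, hg x hx⟩ : ℕ) = f x := by
  classical
  let fC : C → Fin n := fun x => ⟨f x, hf x x.2⟩
  let gC : C → Fin n := fun x => ⟨g x, hg x x.2⟩
  have hfC : Function.Injective fC := by
    intro x y h
    exact Subtype.ext (hfi x x.2 y y.2 (congrArg Fin.val h))
  have hgC : Function.Injective gC := by
    intro x y h
    exact Subtype.ext (hgi x x.2 y y.2 (congrArg Fin.val h))
  let e : {k // k ∈ Set.range gC} ≃ {k // k ∈ Set.range fC} :=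
    (Equiv.ofInjective gC hgC).symm.trans (Equiv.ofInjective fC hfC)
  refine ⟨e.extendSubtype, ?_⟩
  intro x hx
  have h1 : (⟨g x, hg x hx⟩ : Fin n) ∈ Set.range gC := ⟨⟨x, hx⟩, rfl⟩
  rw [Equiv.extendSubtype_apply_of_mem e _ h1]
  have h2 : (⟨⟨g x, hg x hx⟩, h1⟩ : {k // k ∈ Set.range gC}) =
      Equiv.ofInjective gC hgC ⟨x, hx⟩ := rfl
  have h3 : e ⟨⟨g x, hg x hx⟩, h1⟩ = Equiv.ofInjective fC hfC ⟨x, hx⟩ := by
    show (Equiv.ofInjective fC hfC) ((Equiv.ofInjective gC hgC).symm _) = _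
    rw [h2, Equiv.symm_apply_apply]
  rw [h3]
  rfl

theorem glue_perf (V : Type) [Finite V] (G : SimpleGraph V) (A B : Set V)
    (hA : Perf G A) (hB : Perf G B) (hC : Clq G (A ∩ B))
    (hcross : ∀ x ∈ A, x ∉ B → ∀ y ∈ B, y ∉ A → ¬ G.Adj x y) : Perf G (A ∪ B) := by
  classical
  intro X hX n hn
  obtain ⟨f, hf1, hf2⟩ := hA (X ∩ A) Set.inter_subset_right n (hn.mono Set.inter_subset_left)
  obtain ⟨g, hg1, hg2⟩ := hB (X ∩ B) Set.inter_subset_right n (hn.mono Set.inter_subset_left)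
  have hfi : ∀ x ∈ X ∩ (A ∩ B), ∀ y ∈ X ∩ (A ∩ B), f x = f y → x = y := by
    intro x hx y hy h
    by_contra hne
    exact hf2 x ⟨hx.1, hx.2.1⟩ y ⟨hy.1, hy.2.1⟩ (hC x hx.2 y hy.2 hne) h
  have hgi : ∀ x ∈ X ∩ (A ∩ B), ∀ y ∈ X ∩ (A ∩ B), g x = g y → x = y := by
    intro x hx y hy h
    by_contra hne
    exact hg2 x ⟨hx.1, hx.2.2⟩ y ⟨hy.1, hy.2.2⟩ (hC x hx.2 y hy.2 hne) h
  obtain ⟨σ, hσ⟩ := exists_perm n (X ∩ (A ∩ B)) f g (fun x hx => hf1 x ⟨hx.1, hx.2.1⟩)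
    (fun x hx => hg1 x ⟨hx.1, hx.2.2⟩) hfi hgi
  obtain ⟨h, hh⟩ : ∃ h : V → ℕ, h = fun x => if x ∈ A then f x else
      if hx : g x < n then (σ ⟨g x, hx⟩ : ℕ) else 0 := ⟨_, rfl⟩
  have hA' : ∀ x, x ∈ A → h x = f x := by
    intro x hx
    rw [hh]
    exact if_pos hx
  have hB' : ∀ x, x ∈ X → x ∈ B → ∀ hx : g x < n, h x = (σ ⟨g x, hx⟩ : ℕ) := by
    intro x hxX hxB hx
    by_cases hxA : x ∈ A
    · rw [hA' x hxA, ← hσ x ⟨hxX, hxA, hxB⟩]
    · rw [hh]
      show (if x ∈ A then f x else if hx : g x < n then (σ ⟨g x, hx⟩ : ℕ) else 0) = _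
      rw [if_neg hxA, dif_pos hx]
  refine ⟨h, ?_, ?_⟩
  · intro x hx
    rcases hX hx with hxA | hxB
    · rw [hA' x hxA]
      exact hf1 x ⟨hx, hxA⟩
    · rw [hB' x hx hxB (hg1 x ⟨hx, hxB⟩)]
      exact (σ ⟨g x, _⟩).2
  · have hBB : ∀ x ∈ X, ∀ y ∈ X, x ∈ B → y ∈ B → G.Adj x y → h x ≠ h y := by
      intro x hx y hy hxB hyB hxy he
      rw [hB' x hx hxB (hg1 x ⟨hx, hxB⟩), hB' y hy hyB (hg1 y ⟨hy, hyB⟩)] at he
      have h1 := σ.injective (Fin.ext he)
      exact hg2 x ⟨hx, hxB⟩ y ⟨hy, hyB⟩ hxy (congrArg Fin.val h1)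
    have hAA : ∀ x ∈ X, ∀ y ∈ X, x ∈ A → y ∈ A → G.Adj x y → h x ≠ h y := by
      intro x hx y hy hxA hyA hxy
      rw [hA' x hxA, hA' y hyA]
      exact hf2 x ⟨hx, hxA⟩ y ⟨hy, hyA⟩ hxy
    intro x hx y hy hxy
    by_cases hxA : x ∈ A
    · by_cases hyA : y ∈ A
      · exact hAA x hx y hy hxA hyA hxy
      · have hyB : y ∈ B := (hX hy).resolve_left hyA
        by_cases hxB : x ∈ B
        · exact hBB x hx y hy hxB hyB hxy
        · exact absurd hxy (hcross x hxA hxB y hyB hyA)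
    · have hxB : x ∈ B := (hX hx).resolve_left hxA
      by_cases hyB : y ∈ B
      · exact hBB x hx y hy hxB hyB hxy
      · have hyA : y ∈ A := (hX hy).resolve_right hyB
        exact absurd hxy.symm (hcross y hyA hyB x hxB hxA)

theorem clq_perf (V : Type) [Finite V] (G : SimpleGraph V) (K : Set V) (hK : Clq G K) :
    Perf G K := by
  classical
  intro X hX n hn
  have hfin : X.Finite := Set.toFinite X
  obtain ⟨F, hF⟩ : ∃ F : Finset V, (F : Set V) = X := ⟨hfin.toFinset, hfin.coe_toFinset⟩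
  have hcard : F.card ≤ n := hn F hF.subset ((hK.mono hX).mono hF.subset)
  refine ⟨fun x => if hx : x ∈ F then (F.equivFin ⟨x, hx⟩ : ℕ) else 0, ?_, ?_⟩
  · intro x hx
    have hxF : x ∈ F := by
      rw [← Finset.mem_coe, hF]
      exact hx
    show (if hx : x ∈ F then (F.equivFin ⟨x, hx⟩ : ℕ) else 0) < n
    rw [dif_pos hxF]
    exact lt_of_lt_of_le (F.equivFin ⟨x, hxF⟩).2 hcard
  · intro x hx y hy hxy
    have hxF : x ∈ F := by
      rw [← Finset.mem_coe, hF]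
      exact hx
    have hyF : y ∈ F := by
      rw [← Finset.mem_coe, hF]
      exact hy
    show (if hx : x ∈ F then (F.equivFin ⟨x, hx⟩ : ℕ) else 0) ≠
      (if hx : y ∈ F then (F.equivFin ⟨y, hx⟩ : ℕ) else 0)
    rw [dif_pos hxF, dif_pos hyF]
    intro h
    have h1 := F.equivFin.injective (Fin.ext h)
    exact hxy.ne (congrArg Subtype.val h1)

/-- **GLUE.** -/
theorem goalGLUE : G_GLUE := by
  refine ⟨fun V _ G A B hA hB hC h => glue_perf V G A B hA hB hC h,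
    fun V _ G K hK => clq_perf V G K hK, ?_⟩
  intro V _ G A v hA hN
  by_cases hv : v ∈ A
  · rw [Set.insert_eq_of_mem hv]
    exact hA
  · have hQ : Clq G (insert v {x | x ∈ A ∧ G.Adj v x}) := hN.insert fun x hx _ => hx.2
    have h1 : insert v A = A ∪ insert v {x | x ∈ A ∧ G.Adj v x} := by
      ext x
      constructor
      · rintro (rfl | h)
        · exact Or.inr (Or.inl rfl)
        · exact Or.inl h
      · rintro (h | rfl | h)
        · exact Or.inr h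
        · exact Or.inl rfl
        · exact Or.inr h.1
    rw [h1]
    refine glue_perf V G A _ hA (clq_perf V G _ hQ) ?_ ?_
    · exact hQ.mono Set.inter_subset_right
    · rintro x hxA hxB y (rfl | hy) hyA hxy
      · exact hxB (Or.inr ⟨hxA, hxy.symm⟩)
      · exact hyA hy.1

end Pool.Agent.Helper48.SV
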