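import Pool.Agent.Helper2.SV.GoalsP
import Pool.Agent.Helper2.SV.GoalsF

/-!
# Project SV (MP_e9db21_co): packet SV-S5

If `X+` is not empty there is a co-1-join.
-/

set_option autoImplicit false

namespace Pool.Agent.Helper48.SV

open Pool.Agent.Helper2.SV

theorem part4 {V : Type} (G : SimpleGraph V) (Q : Set V) (v : V) :
    v ∈ Q ∨ v ∈ Xs G Q ∨ v ∈ Ys G Q ∨ v ∈ Zs G Q := by
  by_cases h1 : v ∈ Q
  · exact Or.inl h1
  by_cases h2 : ∀ q ∈ Q, G.Adj v q
  · exact Or.inr (Or.inl ⟨h1, h2⟩)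
  by_cases h3 : ∀ q ∈ Q, ¬ G.Adj v q
  · exact Or.inr (Or.inr (Or.inl ⟨h1, h3⟩))
  push Not at h2 h3
  exact Or.inr (Or.inr (Or.inr ⟨h1, h3, h2⟩))

theorem goalS5 (hMI : G_MI) (hS2 : G_S2) (hLD : G_LD) (hS4 : G_S4) : G_S5 := by
  intro V _ G Q hP hC hF hQ hX
  obtain ⟨-, -, -, hcocon, htwo⟩ := hMI.2 V G Q hQ
  have hS2 := hS2 V G Q hF hQ
  have hS4 := hS4 V G Q hP hF hQ
  -- Q is not empty
  have hQne : Q.Nonempty := by
    by_contra h
    rw [Set.not_nonempty_iff_eq_empty] at h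
    exact htwo ∅ ∅ (clq_empty G) (clq_empty G) (by rw [h]; exact Set.empty_subset _)
  obtain ⟨q0, hq0⟩ := hQne
  have hpart := part4 G Q
  -- Q has two vertices
  have hQtwo : ∃ a ∈ Q, ∃ b ∈ Q, a ≠ b := by
    by_contra h
    push Not at h
    refine htwo {q0} {q0} (clq_singleton G q0) (clq_singleton G q0) ?_
    intro x hx
    exact Or.inl (h x hx q0 hq0)
  -- Y is not empty
  obtain ⟨xx, hxx⟩ := hX
  obtain ⟨y, hy, hxxy⟩ := hxx.2
  have hYX : ∀ v ∈ Ys G Q, v ∉ Xs G Q := fun v hv h => hv.2 q0 hq0 (h.2 q0 hq0)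
  have hQX : ∀ v ∈ Q, v ∉ Xs G Q := fun v hv h => h.1 hv
  have hZX : ∀ v ∈ Zs G Q, v ∉ Xs G Q := by
    rintro v ⟨-, -, q, hq, hvq⟩ h
    exact hvq (h.2 q hq)
  have hYZ : ∀ v ∈ Ys G Q, v ∉ Zs G Q := by
    rintro v hv ⟨-, ⟨q, hq, hvq⟩, -⟩
    exact hv.2 q hq hvq
  have hX0Y : ∀ x, x ∈ Xs G Q → x ∉ Xp G Q → ∀ v ∈ Ys G Q, ¬ G.Adj x v := by
    intro x hx hx' v hv h
    exact hx' ⟨hx, v, hv, h⟩
  -- (1)
  obtain ⟨x1, hx1, x0, -, hx0p, hx10⟩ := hC (Xp G Q) (Set.subset_univ _) ⟨xx, hxx⟩ (by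
    intro h
    have : q0 ∈ Xp G Q := by rw [h]; trivial
    exact this.1.1 hq0)
  have hx0 : x0 ∈ Xs G Q := by
    by_contra h
    exact hx10 (hS4 x1 hx1 x0 h)
  -- (2)
  have hYc : ∀ v ∈ Ys G Q, ∀ v' ∈ Ys G Q, v ≠ v' → G.Adj v v' := by
    intro v hv v' hv' hne
    have h := hF x1 v v' q0 x0 (hS4 x1 hx1 v (hYX v hv)) (hS4 x1 hx1 v' (hYX v' hv'))
      (hx1.1.2 q0 hq0) (hx0.2 q0 hq0).symm hne
      (fun h => hv.1 (h ▸ hq0)) (fun h => hv'.1 (h ▸ hq0)) (fun h => hx0p (h ▸ hx1))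
    rcases h with h | h | h | h | h | h
    · exact h
    · exact absurd h (hv.2 q0 hq0)
    · exact absurd h (hv'.2 q0 hq0)
    · exact absurd h hx10
    · exact absurd h.symm (hX0Y x0 hx0 hx0p v hv)
    · exact absurd h.symm (hX0Y x0 hx0 hx0p v' hv')
  -- (3)
  have h3 : ∀ a ∈ Xp G Q, ∀ b, b ∈ Xs G Q → b ∉ Xp G Q → ¬ G.Adj a b →
      ∀ z ∈ Zs G Q, ¬ G.Adj z b → ∀ v ∈ Ys G Q, G.Adj z v := by
    intro a ha b hb hb' hab z hz hzb v hv
    obtain ⟨q, hq, hzq⟩ := hz.2.2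
    have h := hF a v z q b (hS4 a ha v (hYX v hv)) (hS4 a ha z (hZX z hz))
      (ha.1.2 q hq) (hb.2 q hq).symm (fun h => hYZ v hv (h ▸ hz))
      (fun h => hv.1 (h ▸ hq)) (fun h => hz.1 (h ▸ hq)) (fun h => hb' (h ▸ ha))
    rcases h with h | h | h | h | h | h
    · exact h.symm
    · exact absurd h (hv.2 q hq)
    · exact absurd h hzq
    · exact absurd h hab
    · exact absurd h.symm (hX0Y b hb hb' v hv)
    · exact absurd h hzb
  -- (4)
  have h4 : ∀ z ∈ Zs G Q, ∀ v ∈ Ys G Q, G.Adj z v → ∀ b, b ∈ Xs G Q → b ∉ Xp G Q →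
      ¬ G.Adj z b := by
    intro z hz v hv hzv b hb hb' hzb
    obtain ⟨-, q, hq, q', hq', hne, hqq, hzq, hzq'⟩ := hS2 v hv z hz hzv.symm
    have h := hF b q q' z v (hb.2 q hq) (hb.2 q' hq') hzb.symm hzv hne
      (fun h => hz.1 (h ▸ hq)) (fun h => hz.1 (h ▸ hq')) (fun h => hYX v hv (h ▸ hb))
    rcases h with h | h | h | h | h | h
    · exact hqq h
    · exact hzq h.symm
    · exact hzq' h.symm
    · exact hX0Y b hb hb' v hv h
    · exact hv.2 q hq h.symm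
    · exact hv.2 q' hq' h.symm
  -- Y = {y}
  have hYone : ∀ v ∈ Ys G Q, v = y := by
    intro v hv
    by_contra hne
    have h := hP (Ys G Q) ?_ ⟨v, hv, y, hy, hne⟩
    · have : q0 ∈ Ys G Q := by rw [h]; trivial
      exact this.1 hq0
    · intro x hx
      rcases hpart x with h | h | h | h
      · right
        intro v' hv' hadj
        exact hv'.2 x h hadj.symm
      · by_cases hxp : x ∈ Xp G Q
        · left
          intro v' hv'
          exact hS4 x hxp v' (hYX v' hv')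
        · right
          intro v' hv'
          exact hX0Y x h hxp v' hv'
      · exact absurd h hx
      · by_cases hxz : ∃ v' ∈ Ys G Q, G.Adj x v'
        · left
          obtain ⟨v', hv', hxv'⟩ := hxz
          exact h3 x1 hx1 x0 hx0 hx0p hx10 x h (h4 x h v' hv' hxv' x0 hx0 hx0p)
        · right
          push Not at hxz
          exact hxz
  -- (6)
  obtain ⟨z0, hz0, hz0y⟩ : ∃ z ∈ Zs G Q, G.Adj z y := by
    obtain ⟨x, hyx, r, hr, hxr⟩ := hLD V G hP hF y Q (by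
      intro q hq
      exact ⟨fun h => hy.1 (h ▸ hq), hy.2 q hq⟩) hQtwo hcocon
    rcases hpart x with h | h | h | h
    · exact absurd hyx (hy.2 x h)
    · exact absurd (h.2 r hr) hxr
    · exact absurd hyx (by rw [hYone x h]; exact G.loopless.irrefl y)
    · exact ⟨x, h, hyx.symm⟩
  -- (7)
  have h7 : ∀ a, a ∈ Xs G Q → a ∉ Xp G Q → ∀ b, b ∈ Xs G Q → b ∉ Xp G Q → a ≠ b →
      G.Adj a b := by
    intro a ha ha' b hb hb' hne
    obtain ⟨q, hq, hzq⟩ := hz0.2.1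
    have h := hF q a b z0 y (ha.2 q hq).symm (hb.2 q hq).symm hzq.symm hz0y hne
      (fun h => hZX z0 hz0 (h ▸ ha)) (fun h => hZX z0 hz0 (h ▸ hb)) (fun h => hy.1 (h ▸ hq))
    rcases h with h | h | h | h | h | h
    · exact h
    · exact absurd h.symm (h4 z0 hz0 y hy hz0y a ha ha')
    · exact absurd h.symm (h4 z0 hz0 y hy hz0y b hb hb')
    · exact absurd h.symm (hy.2 q hq)
    · exact absurd h (hX0Y a ha ha' y hy)
    · exact absurd h (hX0Y b hb hb' y hy)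
  -- (8)
  refine ⟨{v | v ∈ Q ∨ v ∈ Zs G Q ∨ v = y ∨
      (v ∈ Xs G Q ∧ v ∉ Xp G Q ∧ ∀ a ∈ Xp G Q, G.Adj a v)},
    {v | v = y ∨ (v ∈ Zs G Q ∧ G.Adj v y)},
    {v | v ∈ Xs G Q ∧ v ∉ Xp G Q ∧ ∃ a ∈ Xp G Q, ¬ G.Adj a v}, x0, y, ?_⟩
  constructor
  · rintro v (h | h)
    · exact Or.inr (Or.inr (Or.inl h))
    · exact Or.inr (Or.inl h.1)
  · rintro b ⟨hb, hb', a, ha, hab⟩ (h | h | h | h)
    · exact hb.1 h
    · exact hZX b h hb
    · exact hYX y hy (h ▸ hb)
    · exact hab (h.2.2 a ha)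
  · exact Or.inl rfl
  · exact ⟨hx0, hx0p, x1, hx1, hx10⟩
  · exact ⟨q0, Or.inl hq0, fun h => hy.1 (h ▸ hq0)⟩
  · refine ⟨x1, ?_, fun h => hx0p (h ▸ hx1)⟩
    rintro (h | h | h | h)
    · exact hx1.1.1 h
    · exact hZX x1 h hx1.1
    · exact hYX y hy (h ▸ hx1.1)
    · exact h.2.1 hx1
  · intro a ha b hb
    have hbX : b ∈ Xs G Q := by
      rcases hpart b with h | h | h | h
      · exact absurd (Or.inl h) hb
      · exact h
      · exact absurd (Or.inr (Or.inr (Or.inl (hYone b h)))) hb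
      · exact absurd (Or.inr (Or.inl h)) hb
    by_cases hbp : b ∈ Xp G Q
    · have hadj : G.Adj a b := by
        rcases ha with h | h | h | h
        · exact (hbX.2 a h).symm
        · exact (hS4 b hbp a (hZX a h)).symm
        · rw [h]
          exact (hS4 b hbp y (hYX y hy)).symm
        · exact (h.2.2 b hbp).symm
      constructor
      · intro _ h
        exact h.2.2.1 hbp
      · intro _
        exact hadj
    · have hbex : ∃ x ∈ Xp G Q, ¬ G.Adj x b := by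
        by_contra h
        push Not at h
        exact hb (Or.inr (Or.inr (Or.inr ⟨hbX, hbp, h⟩)))
      have hbF : b ∈ {v | v ∈ Xs G Q ∧ v ∉ Xp G Q ∧ ∃ a ∈ Xp G Q, ¬ G.Adj a v} :=
        ⟨hbX, hbp, hbex⟩
      obtain ⟨x, hx, hxb⟩ := hbex
      rcases ha with h | h | h | h
      · constructor
        · rintro _ ⟨h' | h', _⟩
          · exact hy.1 (h' ▸ h)
          · exact h'.1.1 h
        · intro _
          exact (hbX.2 a h).symm
      · constructor
        · rintro hab ⟨h' | h', _⟩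
          · exact hYZ y hy (h' ▸ h)
          · exact h4 a h y hy h'.2 b hbX hbp hab
        · intro h'
          by_contra hab
          exact h' ⟨Or.inr ⟨h, h3 x hx b hbX hbp hxb a h hab y hy⟩, hbF⟩
      · constructor
        · intro hab _
          rw [h] at hab
          exact hX0Y b hbX hbp y hy hab.symm
        · intro h'
          exact absurd ⟨Or.inl h, hbF⟩ h'
      · constructor
        · rintro _ ⟨h' | h', _⟩
          · exact hYX y hy (h' ▸ h.1)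
          · exact hZX a h'.1 h.1
        · intro _
          refine h7 a h.1 h.2.1 b hbX hbp ?_
          intro h'
          exact hxb (h' ▸ h.2.2 x hx)

end Pool.Agent.Helper48.SV
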